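import Pool.Agent.H269.NBCK.Lower
import Pool.Agent.H269.NBCK.Double

/-!
# MP_25dd1e_co: the value of `N (b, c, k)` for all positive integers `b ≤ c` and `k`
-/

set_option autoImplicit false

namespace Pool.Agent.Results.MP_25dd1e_co.Determination

open Pool.Agent.H269.NBCK

/-- the value for `b < k`, `c < 2 b` -/
lemma value_small {b c k q r : ℕ} (hb : 0 < b) (hbc : b ≤ c) (hc : c < 2 * b) (hbk : b < k)
    (hq : c = b + q * (2 * k - c) + r) (hr : r < 2 * k - c) :
    N b c k = (k + (k - b) * q + (r + c - (k + b)) : ℕ) := by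
  apply N_eq
  · omega
  · exact upper hb hbc hc hbk hq (by omega)
  · by_cases hne : 1 ≤ q ∨ 1 ≤ r + c - (k + b)
    · exact lower hb hbc hc hbk hq hr rfl hne
    · have h1 : q = 0 := by omega
      have h2 : r + c - (k + b) = 0 := by omega
      rw [h1, h2]
      exact Bad_lt_k hbc (by omega)

/-- iterating the shift identity -/
lemma shift_iter {b c k : ℕ} (hb : 0 < b) (hk : 0 < k) (hbc : b ≤ c) (hc : c < 2 * b) (m : ℕ) :
    N (b + k * m) (c + 2 * (k * m)) k = N b c k + (k * m : ℕ) := by
  induction m with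
  | zero => simp
  | succ m ih =>
    have h := (shift (b + k * m) (c + 2 * (k * m)) k (by omega) hk (by omega) (by omega)).1
    rw [show b + k * (m + 1) = b + k * m + k by ring,
      show c + 2 * (k * (m + 1)) = c + 2 * (k * m) + 2 * k by ring, h, ih]
    push_cast
    ring

/-- **The determination of `N (b, c, k)`.** -/
theorem result (b c k : ℕ) (hb : 0 < b) (hk : 0 < k) (hbc : b ≤ c) :
    -- the infinite cases
    (2 * b < c → N b c k = ⊤) ∧
    (c = 2 * b → padicValNat 2 k ≤ padicValNat 2 b → N b c k = ⊤) ∧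
    -- the case `c = 2 b`, `v₂ k > v₂ b`
    (c = 2 * b → padicValNat 2 b < padicValNat 2 k → N b c k = (b + k - Nat.gcd b k : ℕ)) ∧
    -- the case `c < 2 b`
    (c < 2 * b → c < b + k * (b / k) → N b c k = b) ∧
    (c < 2 * b → b + k * (b / k) ≤ c →
      ∀ m b' c' D : ℕ, m = b / k → b' = b % k → c' = c - 2 * (k * m) → D = 2 * k - c' →
        b' ≤ c' ∧ c' < 2 * b' ∧ b' < k ∧ 0 < D ∧
        N b c k = (k * m + k + (k - b') * ((c' - b') / D) +
          ((c' - b') % D - (k + b' - c')) : ℕ)) := by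
  haveI : Fact (Nat.Prime 2) := ⟨Nat.prime_two⟩
  refine ⟨?_, ?_, ?_, ?_, ?_⟩
  · intro h
    exact N_top (Bad_big hk h)
  · intro h hv
    rw [h]
    apply N_top
    intro n
    apply Bad_eq (v := padicValNat 2 k)
    · exact (padicValNat_dvd_iff_le hb.ne').mpr hv
    · exact pow_padicValNat_dvd
    · exact pow_succ_padicValNat_not_dvd hk.ne'
  · intro h hv
    rw [h]
    obtain ⟨g, hg⟩ : ∃ g, g = Nat.gcd b k := ⟨_, rfl⟩
    have hg0 : 0 < g := by rw [hg]; exact Nat.gcd_pos_of_pos_left _ hb
    obtain ⟨β, κ, hco, e1, e2⟩ := Nat.exists_coprime b k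
    rw [← hg] at e1 e2 ⊢
    have hβ : 0 < β := by
      rcases Nat.eq_zero_or_pos β with h0 | h0
      · rw [h0, zero_mul] at e1; omega
      · exact h0
    have hκ : 0 < κ := by
      rcases Nat.eq_zero_or_pos κ with h0 | h0
      · rw [h0, zero_mul] at e2; omega
      · exact h0
    have hvb : padicValNat 2 b = padicValNat 2 β + padicValNat 2 g := by
      rw [e1, padicValNat.mul hβ.ne' hg0.ne']
    have hvk : padicValNat 2 k = padicValNat 2 κ + padicValNat 2 g := by
      rw [e2, padicValNat.mul hκ.ne' hg0.ne']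
    have hκ2 : 2 ∣ κ := by
      by_contra hcon
      have := padicValNat.eq_zero_of_not_dvd hcon
      omega
    obtain ⟨μ, hμ⟩ := hκ2
    have hβ2 : ¬ 2 ∣ β := by
      intro hcon
      have : 2 ∣ Nat.gcd β κ := Nat.dvd_gcd hcon ⟨μ, hμ⟩
      rw [hco] at this
      omega
    obtain ⟨m, hm⟩ : ∃ m, β + 2 * μ = 2 * m + 1 := ⟨(β + 2 * μ) / 2, by omega⟩
    have f1 : b = g * β := by rw [e1, mul_comm]
    have f2 : k = g * (2 * μ) := by rw [e2, hμ, mul_comm]
    have hgb : g ≤ b := by rw [f1]; nlinarith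
    apply N_eq
    · omega
    · exact double_upper hg0 (by omega) hβ f1 f2 hm
    · exact double_lower hg0 (by omega) hβ f1 f2 hm (by rw [← hμ]; exact hco)
  · intro h h'
    exact N_eq b c k b hb (hit_b hk h') (Bad_lt_b (by omega))
  · intro h h' m b' c' D hm hb' hc' hD
    have e1 := Nat.div_add_mod b k
    have e2 := Nat.mod_lt b hk
    rw [← hm, ← hb'] at e1
    rw [← hb'] at e2
    rw [← hm] at h'
    have e3 : b' ≤ c' := by omega
    have e4 : c' < 2 * b' := by omega
    have e5 : b = b' + k * m := by omega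
    have e6 : c = c' + 2 * (k * m) := by omega
    refine ⟨e3, e4, e2, by omega, ?_⟩
    have e7 := Nat.div_add_mod (c' - b') D
    have e8 := Nat.mod_lt (c' - b') (show 0 < D by omega)
    have e9 : c' = b' + (c' - b') / D * (2 * k - c') + (c' - b') % D := by
      rw [← hD, mul_comm]; omega
    have e10 := value_small (q := (c' - b') / D) (r := (c' - b') % D) (by omega) e3 e4 e2 e9
      (by rw [← hD]; exact e8)
    rw [e5, e6, shift_iter (by omega) hk e3 e4 m, e10]
    rw [← Nat.cast_add]
    congr 1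
    omega

end Pool.Agent.Results.MP_25dd1e_co.Determination
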